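import Pool.Agent.H61.CA.C1
import Pool.Agent.H84.CA.C3

/-!
# CORE C3a: `res_aut` and `ext_sep` (rows of `Pool/Agent/H61/CA/C3.lean`), from helper84's `Phi` / `C3`
-/

open MvPowerSeries

namespace Pool.Agent.H16.CA

open Pool.Agent.H13.CA Pool.Agent.H84.CA

theorem res_aut {k : Type*} [Field k] (p : ℕ) [Fact p.Prime] [CharP k p] {s : ℕ}
    {F : FormalGroup (MvPowerSeries (Fin (s + 1)) k)} (hF : IsLT k p (s + 1) F)
    {π : MvPowerSeries (Fin (s + 1)) k →ₐ[k] PowerSeries k} (hπ : IsProj k s π) (a : Lift k F) :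
    ∃ g' : PowerSeries k ≃ₐ[k] PowerSeries k, ∀ f, π (a.g f) = g' (π f) := by
  have hst : ∀ x ∈ cI s k, a.g x ∈ cI s k := by
    intro x hx
    rw [← Istd_eq_cI] at hx ⊢
    rw [← Istd_stable p hF a s]
    exact Ideal.mem_map_of_mem _ hx
  refine ⟨gbar a.g hst, fun f => ?_⟩
  rw [eq_resA hπ]
  exact (gbar_res a.g hst f).symm

variable {k : Type*} [Field k] {K L : Type*} [Field K] [Field L] [Algebra k K] [Algebra k L]
    [Algebra (PowerSeries k) K] [IsFractionRing (PowerSeries k) K]
    [Algebra K L] [Algebra (PowerSeries k) L]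
    [IsScalarTower k (PowerSeries k) K] [IsScalarTower k K L]
    [IsScalarTower (PowerSeries k) K L] [IsSepClosure K L]

include K in
theorem ext_sep (g' : PowerSeries k ≃ₐ[k] PowerSeries k) :
    ∃ τ : L ≃ₐ[k] L, ∀ f, τ (algebraMap (PowerSeries k) L f) =
      algebraMap (PowerSeries k) L (g' f) := by
  have hcl : IsSepClosed L := IsSepClosure.sep_closed K
  have hsep : Algebra.IsSeparable K L := IsSepClosure.separable
  obtain ⟨τ, hτ⟩ := exists_tau (K := L) K (g' : PowerSeries k ≃+* PowerSeries k)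
  have hτ' : ∀ f, τ (algebraMap (PowerSeries k) L f) = algebraMap (PowerSeries k) L (g' f) := hτ
  refine ⟨AlgEquiv.ofRingEquiv (f := τ) (fun r => ?_), hτ'⟩
  have h1 : algebraMap k L r = algebraMap (PowerSeries k) L (algebraMap k (PowerSeries k) r) := by
    rw [IsScalarTower.algebraMap_apply (PowerSeries k) K L, ← IsScalarTower.algebraMap_apply k (PowerSeries k) K,
      ← IsScalarTower.algebraMap_apply k K L]
  rw [h1, hτ', AlgEquiv.commutes]

end Pool.Agent.H16.CA
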